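import Pool.Agent.Helper38.SG.Basic

/-! # Sobolev gap, piece CALC-D: local product decompositions -/

open Filter Topology Set
open scoped RealInnerProductSpace ContDiff

universe u

namespace Pool.Agent.Helper88.SG

open Pool.Agent.Helper38.SG

variable {G 𝔤 : Type u} [Group G] [TopologicalSpace G] [IsTopologicalGroup G]
  [NormedAddCommGroup 𝔤] [InnerProductSpace ℝ 𝔤] [FiniteDimensional ℝ 𝔤]

omit [IsTopologicalGroup G] [FiniteDimensional ℝ 𝔤] in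
/-- `exp` is injective near `0` -/
theorem exists_inj_nhds (L : LieData G 𝔤) : ∃ U ∈ 𝓝 (0 : 𝔤), ∀ X ∈ U, ∀ Y ∈ U,
    L.exp X = L.exp Y → X = Y := by
  obtain ⟨e, he0, he⟩ := L.exp_chart
  refine ⟨e.source, e.open_source.mem_nhds he0, fun X hX Y hY h => ?_⟩
  rw [← he X hX, ← he Y hY] at h
  exact e.injOn hX hY h

omit [IsTopologicalGroup G] [FiniteDimensional ℝ 𝔤] in
/-- the multiplication in the chart with its first derivative -/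
theorem exists_mul (L : LieData G 𝔤) : ∃ m : 𝔤 × 𝔤 → 𝔤, ContDiffAt ℝ ∞ m (0, 0) ∧
    m (0, 0) = 0 ∧
    HasFDerivAt m (ContinuousLinearMap.fst ℝ 𝔤 𝔤 + ContinuousLinearMap.snd ℝ 𝔤 𝔤) (0, 0) ∧
    ∀ᶠ p in 𝓝 ((0, 0) : 𝔤 × 𝔤), L.exp p.1 * L.exp p.2 = L.exp (m p) := by
  obtain ⟨m, hm, hm0, hmm⟩ := L.mul_smooth
  obtain ⟨U, hU, hinj⟩ := exists_inj_nhds L
  have hd : DifferentiableAt ℝ m (0, 0) := hm.differentiableAt (by simp)
  have hD := hd.hasFDerivAt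
  have hc : ContinuousAt m (0, 0) := hm.continuousAt
  have hl : Tendsto (fun X : 𝔤 => ((X, 0) : 𝔤 × 𝔤)) (𝓝 0) (𝓝 (0, 0)) :=
    (Continuous.prodMk_left (0 : 𝔤)).tendsto 0
  have hr : Tendsto (fun X : 𝔤 => ((0, X) : 𝔤 × 𝔤)) (𝓝 0) (𝓝 (0, 0)) :=
    (Continuous.prodMk_right (0 : 𝔤)).tendsto 0
  have h1 : ∀ᶠ X in 𝓝 (0 : 𝔤), m (X, 0) = X := by
    have h2 : Tendsto (fun X : 𝔤 => m (X, 0)) (𝓝 0) (𝓝 0) := by
      have := hc.tendsto.comp hl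
      rwa [hm0] at this
    filter_upwards [hl.eventually hmm, h2 hU, hU] with X ha hb hcc
    refine (hinj _ hb _ hcc ?_)
    rw [← ha, L.exp_zero, mul_one]
  have h1' : ∀ᶠ X in 𝓝 (0 : 𝔤), m (0, X) = X := by
    have h2 : Tendsto (fun X : 𝔤 => m (0, X)) (𝓝 0) (𝓝 0) := by
      have := hc.tendsto.comp hr
      rwa [hm0] at this
    filter_upwards [hr.eventually hmm, h2 hU, hU] with X ha hb hcc
    refine (hinj _ hb _ hcc ?_)
    rw [← ha, L.exp_zero, one_mul]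
  have h3 : (fderiv ℝ m (0, 0)).comp (ContinuousLinearMap.inl ℝ 𝔤 𝔤) =
      ContinuousLinearMap.id ℝ 𝔤 := by
    have ha : HasFDerivAt (fun X : 𝔤 => m (X, 0))
        ((fderiv ℝ m (0, 0)).comp (ContinuousLinearMap.inl ℝ 𝔤 𝔤)) 0 := by
      have hb : HasFDerivAt (fun X : 𝔤 => ((X, 0) : 𝔤 × 𝔤)) (ContinuousLinearMap.inl ℝ 𝔤 𝔤) 0 :=
        (ContinuousLinearMap.inl ℝ 𝔤 𝔤).hasFDerivAt
      exact HasFDerivAt.comp (0 : 𝔤) (g := m) hD hb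
    have hb : HasFDerivAt (fun X : 𝔤 => m (X, 0)) (ContinuousLinearMap.id ℝ 𝔤) 0 :=
      (hasFDerivAt_id (0 : 𝔤)).congr_of_eventuallyEq h1
    exact ha.unique hb
  have h3' : (fderiv ℝ m (0, 0)).comp (ContinuousLinearMap.inr ℝ 𝔤 𝔤) =
      ContinuousLinearMap.id ℝ 𝔤 := by
    have ha : HasFDerivAt (fun X : 𝔤 => m (0, X))
        ((fderiv ℝ m (0, 0)).comp (ContinuousLinearMap.inr ℝ 𝔤 𝔤)) 0 := by
      have hb : HasFDerivAt (fun X : 𝔤 => ((0, X) : 𝔤 × 𝔤)) (ContinuousLinearMap.inr ℝ 𝔤 𝔤) 0 :=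
        (ContinuousLinearMap.inr ℝ 𝔤 𝔤).hasFDerivAt
      exact HasFDerivAt.comp (0 : 𝔤) (g := m) hD hb
    have hb : HasFDerivAt (fun X : 𝔤 => m (0, X)) (ContinuousLinearMap.id ℝ 𝔤) 0 :=
      (hasFDerivAt_id (0 : 𝔤)).congr_of_eventuallyEq h1'
    exact ha.unique hb
  refine ⟨m, hm, hm0, ?_, hmm⟩
  have h4 : fderiv ℝ m (0, 0) =
      ContinuousLinearMap.fst ℝ 𝔤 𝔤 + ContinuousLinearMap.snd ℝ 𝔤 𝔤 := by
    refine ContinuousLinearMap.ext fun p => ?_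
    have ha := congrArg (fun T : 𝔤 →L[ℝ] 𝔤 => T p.1) h3
    have hb := congrArg (fun T : 𝔤 →L[ℝ] 𝔤 => T p.2) h3'
    simp only [ContinuousLinearMap.comp_apply, ContinuousLinearMap.inl_apply,
      ContinuousLinearMap.inr_apply, ContinuousLinearMap.id_apply] at ha hb
    have hc' : p = (p.1, 0) + (0, p.2) := by simp
    calc fderiv ℝ m (0, 0) p = fderiv ℝ m (0, 0) ((p.1, 0) + (0, p.2)) := by rw [← hc']
      _ = p.1 + p.2 := by rw [map_add, ha, hb]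
      _ = _ := rfl
  rw [← h4]
  exact hD

omit [IsTopologicalGroup G] [FiniteDimensional ℝ 𝔤] in
theorem exists_Q (L : LieData G 𝔤) (T : List (𝔤 →L[ℝ] 𝔤)) :
    ∃ Q : 𝔤 → 𝔤, ContDiffAt ℝ ∞ Q 0 ∧ Q 0 = 0 ∧ HasFDerivAt Q T.sum 0 ∧
      ∀ᶠ Y in 𝓝 (0 : 𝔤), L.exp (Q Y) = (T.map fun T => L.exp (T Y)).prod := by
  obtain ⟨m, hm, hm0, hmd, hmm⟩ := exists_mul L
  induction T with
  | nil =>
    refine ⟨fun _ => 0, contDiffAt_const, rfl, ?_, Eventually.of_forall fun Y => ?_⟩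
    · exact hasFDerivAt_const (0 : 𝔤) (0 : 𝔤)
    · simp [L.exp_zero]
  | cons A T ih =>
    obtain ⟨Q, hQ, hQ0, hQd, hQe⟩ := ih
    have hA0 : A 0 = 0 := map_zero A
    have hpair : ContDiffAt ℝ ∞ (fun Y : 𝔤 => (A Y, Q Y)) 0 := A.contDiff.contDiffAt.prodMk hQ
    have h00 : ((fun Y : 𝔤 => (A Y, Q Y)) 0) = (0, 0) := by
      change (A 0, Q 0) = (0, 0)
      rw [hA0, hQ0]
    refine ⟨fun Y => m (A Y, Q Y), ?_, ?_, ?_, ?_⟩
    · have h1 : ContDiffAt ℝ ∞ m ((fun Y : 𝔤 => (A Y, Q Y)) 0) := by rw [h00]; exact hm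
      exact h1.comp (0 : 𝔤) hpair
    · change m (A 0, Q 0) = 0
      rw [hA0, hQ0, hm0]
    · have h1 : HasFDerivAt m (ContinuousLinearMap.fst ℝ 𝔤 𝔤 + ContinuousLinearMap.snd ℝ 𝔤 𝔤)
          ((fun Y : 𝔤 => (A Y, Q Y)) 0) := by rw [h00]; exact hmd
      have h2 : HasFDerivAt (fun Y : 𝔤 => (A Y, Q Y)) (A.prod T.sum) 0 :=
        A.hasFDerivAt.prodMk hQd
      have h3 := h1.comp (0 : 𝔤) h2
      have h4 : (ContinuousLinearMap.fst ℝ 𝔤 𝔤 + ContinuousLinearMap.snd ℝ 𝔤 𝔤).comp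
          (A.prod T.sum) = (A :: T).sum := by
        refine ContinuousLinearMap.ext fun Y => ?_
        rw [List.sum_cons]
        rfl
      rw [h4] at h3
      exact h3
    · have h1 : Tendsto (fun Y : 𝔤 => (A Y, Q Y)) (𝓝 0) (𝓝 (0, 0)) := by
        have := hpair.continuousAt.tendsto
        rwa [hA0, hQ0] at this
      filter_upwards [h1.eventually hmm, hQe] with Y ha hb
      rw [List.map_cons, List.prod_cons, ← hb]
      exact ha.symm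

omit [IsTopologicalGroup G] in
/-- If `∑ T = 1` then near the unit every `exp X` is the product of the `exp (T (z X))` with `z`
smooth, `z 0 = 0`, `z' (0) = 1`. -/
theorem exists_prod_coord (L : LieData G 𝔤) (T : List (𝔤 →L[ℝ] 𝔤))
    (hT : T.sum = ContinuousLinearMap.id ℝ 𝔤) :
    ∃ z : 𝔤 → 𝔤, ContDiffAt ℝ ∞ z 0 ∧ z 0 = 0 ∧
      HasFDerivAt z (ContinuousLinearMap.id ℝ 𝔤) 0 ∧
      ∀ᶠ X in 𝓝 (0 : 𝔤), L.exp X = (T.map fun T => L.exp (T (z X))).prod := by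
  have : CompleteSpace 𝔤 := FiniteDimensional.complete ℝ 𝔤
  obtain ⟨Q, hQ, hQ0, hQd, hQe⟩ := exists_Q L T
  rw [hT] at hQd
  have hQd' : HasFDerivAt Q ((ContinuousLinearEquiv.refl ℝ 𝔤 : 𝔤 ≃L[ℝ] 𝔤) : 𝔤 →L[ℝ] 𝔤) 0 := hQd
  have hn : (∞ : WithTop ℕ∞) ≠ 0 := by simp
  have hstrict : HasStrictFDerivAt Q
      ((ContinuousLinearEquiv.refl ℝ 𝔤 : 𝔤 ≃L[ℝ] 𝔤) : 𝔤 →L[ℝ] 𝔤) 0 :=
    hQ.hasStrictFDerivAt' hQd' hn
  have h1 := hQ.to_localInverse hQd' hn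
  have h2 := hQ.localInverse_apply_image hQd' hn
  have h3 := hstrict.to_localInverse
  have h4 := hstrict.eventually_right_inverse
  rw [hQ0] at h1 h2 h3 h4
  refine ⟨hQ.localInverse hQd' hn, h1, h2, h3.hasFDerivAt, ?_⟩
  have h5 : Tendsto (hQ.localInverse hQd' hn) (𝓝 0) (𝓝 0) := by
    have := h1.continuousAt.tendsto
    rwa [h2] at this
  filter_upwards [h4, h5.eventually hQe] with X ha hb
  rw [← hb]
  congr 1
  exact ha.symm

omit [IsTopologicalGroup G] [FiniteDimensional ℝ 𝔤] in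
/-- `exp` maps neighbourhoods of `0` onto neighbourhoods of `1`. -/
theorem map_exp_nhds_zero (L : LieData G 𝔤) : map L.exp (𝓝 0) = 𝓝 1 := by
  obtain ⟨e, he0, he⟩ := L.exp_chart
  have h1 : map e (𝓝 0) = 𝓝 (e 0) := e.map_nhds_eq he0
  have h2 : map L.exp (𝓝 0) = map e (𝓝 0) := by
    refine Filter.map_congr ?_
    filter_upwards [e.open_source.mem_nhds he0] with X hX
    exact (he X hX).symm
  rw [h2, h1, he 0 he0, L.exp_zero]

end Pool.Agent.Helper88.SG
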