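import Mathlib
import Pool.Agent.Helper38.SG.Base1
import Pool.Agent.Helper38.SG.Mod

/-! # Sobolev gap, piece BASE-2: the basic inequality -/

open Filter Topology Set MeasureTheory
open scoped RealInnerProductSpace ContDiff

universe u

set_option linter.unusedSectionVars false

namespace Pool.Agent.Helper88.SG

open Pool.Agent.Helper38.SG

variable {G 𝔤 : Type u} [Group G] [TopologicalSpace G] [IsTopologicalGroup G] [T2Space G]
  [NormedAddCommGroup 𝔤] [InnerProductSpace ℝ 𝔤] [FiniteDimensional ℝ 𝔤] {P : ParData G 𝔤}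
  {U : Type u} [NormedAddCommGroup U] [InnerProductSpace ℂ U]

/-- the sup norm over `K` of functions in `V` -/
noncomputable def sn {P : ParData G 𝔤} {U : Type u} [NormedAddCommGroup U]
    [InnerProductSpace ℂ U] {R : RepData P U} (f : V R) : ℝ := ⨆ k : P.K, ‖(f : G → U) k‖

variable {R : RepData P U}

theorem bddAbove_sn (f : V R) : BddAbove (Set.range fun k : P.K => ‖(f : G → U) k‖) := by
  have hc : Continuous fun k : P.K => ‖(f : G → U) k‖ :=
    (f.2.1.comp continuous_subtype_val).norm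
  exact (isCompact_range hc).bddAbove

theorem le_sn (f : V R) {k : G} (hk : k ∈ P.K) : ‖(f : G → U) k‖ ≤ sn f :=
  le_ciSup (bddAbove_sn f) (⟨k, hk⟩ : P.K)

theorem sn_le (f : V R) {B : ℝ} (h : ∀ k ∈ P.K, ‖(f : G → U) k‖ ≤ B) : sn f ≤ B :=
  ciSup_le fun k => h k k.2

theorem sn_nonneg (f : V R) : 0 ≤ sn f := (norm_nonneg _).trans (le_sn f (one_mem P.K))

theorem sn_zero : sn (0 : V R) = 0 :=
  le_antisymm (sn_le _ fun _ _ => by simp) (sn_nonneg _)

theorem sn_add (f g : V R) : sn (f + g) ≤ sn f + sn g := sn_le _ fun k hk =>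
  (norm_add_le _ _).trans (add_le_add (le_sn f hk) (le_sn g hk))

theorem sn_smul_le (a : ℝ) (f : V R) : sn (a • f) ≤ ‖a‖ * sn f := sn_le _ fun k hk => by
  have : ((a • f : V R) : G → U) k = a • (f : G → U) k := rfl
  rw [this, norm_smul]
  exact mul_le_mul_of_nonneg_left (le_sn f hk) (norm_nonneg _)

theorem sn_sum {ι : Type*} (s : Finset ι) (f : ι → V R) :
    sn (∑ i ∈ s, f i) ≤ ∑ i ∈ s, sn (f i) := by
  classical
  induction s using Finset.induction_on with
  | empty => simp [sn_zero]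
  | insert a s ha ih =>
    rw [Finset.sum_insert ha, Finset.sum_insert ha]
    exact (sn_add _ _).trans (add_le_add le_rfl ih)

/-- `sn` is invariant under `K` -/
theorem sn_kact (k : P.K) (f : V R) : sn (kact R k f) ≤ sn f := sn_le _ fun l hl => by
  rw [kact_coe]
  exact le_sn f (mul_mem (inv_mem k.2) hl)

/-- evaluation at the unit -/
noncomputable def ev (R : RepData P U) : V R →ₗ[ℂ] U where
  toFun f := (f : G → U) 1
  map_add' _ _ := rfl
  map_smul' _ _ := rfl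

/-- evaluation at the unit is onto, if `V` is not zero -/
theorem ev_surj (h : ∃ f : V R, f ≠ 0) : Function.Surjective (ev R) := by
  have hst : ∀ m, ∀ w ∈ LinearMap.range (ev R), R.σ m w ∈ LinearMap.range (ev R) := by
    rintro m _ ⟨f, rfl⟩
    refine ⟨kact R ⟨(m : G), m.2.1⟩ f, ?_⟩
    change (kact R ⟨(m : G), m.2.1⟩ f : G → U) 1 = R.σ m ((f : G → U) 1)
    rw [kact_coe]
    change (f : G → U) ((m : G)⁻¹ * 1) = _
    have := f.2.2.1.map_M 1 m⁻¹
    rw [inv_inv] at this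
    rw [← this]
    simp
  rcases R.irred (LinearMap.range (ev R)) hst with h1 | h1
  · exfalso
    obtain ⟨f, hf⟩ := h
    apply hf
    have h2 : ∀ g : V R, (g : G → U) 1 = 0 := fun g => by
      have : ev R g ∈ LinearMap.range (ev R) := ⟨g, rfl⟩
      rw [h1, Submodule.mem_bot] at this
      exact this
    have h3 : ∀ k ∈ P.K, (f : G → U) k = 0 := fun k hk => by
      have := h2 (kact R ⟨k⁻¹, inv_mem hk⟩ f)
      rw [kact_coe] at this
      simpa [lt] using this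
    refine Subtype.ext (funext fun x => ?_)
    rw [f.2.2.1.apply_eq x, h3 _ (P.κ_mem x), smul_zero]
    rfl
  · exact LinearMap.range_eq_top.1 h1

variable [FiniteDimensional ℂ U]

/-- derivatives of translates -/
theorem sn_act_kact (k : P.K) (f : V R) (i : Fin (Module.finrank ℝ P.𝔨)) :
    sn (act R (stdOrthonormalBasis ℝ P.𝔨 i : 𝔤) (kact R k f)) ≤
      ∑ j, sn (act R (stdOrthonormalBasis ℝ P.𝔨 j : 𝔤) f) := by
  set b := stdOrthonormalBasis ℝ P.𝔨 with hb
  -- `z_i = Ad k X`, `X = Ad k⁻¹ z_i`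
  set X : 𝔤 := P.Ad (k : G)⁻¹ (b i : 𝔤) with hX
  have hX𝔨 : X ∈ P.𝔨 := by
    rw [P.mem_𝔨, hX, ← P.Ad_θ _ (inv_mem k.2), P.mem_𝔨.1 (b i).2]
  have hAd : P.Ad k X = (b i : 𝔤) := by
    rw [hX, ← Module.End.mul_apply, ← map_mul, mul_inv_cancel, map_one, Module.End.one_apply]
  rw [← hAd, ← kact_act]
  refine (sn_kact _ _).trans ?_
  have hexp : X = ∑ j, inner ℝ (b j) (⟨X, hX𝔨⟩ : P.𝔨) • (b j : 𝔤) := by
    have h1 := congrArg (fun v : P.𝔨 => (v : 𝔤)) (b.sum_repr' (⟨X, hX𝔨⟩ : P.𝔨))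
    simp only at h1
    conv_lhs => rw [← h1]
    push_cast
    rfl
  have hact : act R X f = ∑ j, inner ℝ (b j) (⟨X, hX𝔨⟩ : P.𝔨) • act R (b j : 𝔤) f := by
    let A : 𝔤 →ₗ[ℝ] V R :=
      { toFun := fun Y => act R Y f
        map_add' := fun Y Z => act_add Y Z f
        map_smul' := fun a Y => act_smul a Y f }
    have h2 : A X = ∑ j, inner ℝ (b j) (⟨X, hX𝔨⟩ : P.𝔨) • A (b j : 𝔤) := by
      conv_lhs => rw [hexp]
      rw [map_sum]
      simp only [map_smul]
    exact h2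
  rw [hact]
  refine (sn_sum _ _).trans (Finset.sum_le_sum fun j _ => ?_)
  refine (sn_smul_le _ _).trans ?_
  have hXn : ‖(⟨X, hX𝔨⟩ : P.𝔨)‖ = 1 := by
    have h1 : ‖X‖ = ‖(b i : 𝔤)‖ := by
      have h2 := P.Ad_isom _ (inv_mem k.2) (b i : 𝔤) (b i : 𝔤)
      rw [real_inner_self_eq_norm_sq, real_inner_self_eq_norm_sq] at h2
      exact (sq_eq_sq₀ (norm_nonneg _) (norm_nonneg _)).1 h2
    have h3 : ‖(b i : 𝔤)‖ = 1 := by
      have := b.orthonormal.1 i
      exact this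
    change ‖X‖ = 1
    rw [h1, h3]
  have hin : ‖inner ℝ (b j) (⟨X, hX𝔨⟩ : P.𝔨)‖ ≤ 1 := by
    refine (norm_inner_le_norm _ _).trans ?_
    rw [b.orthonormal.1 j, hXn, one_mul]
  calc ‖inner ℝ (b j) (⟨X, hX𝔨⟩ : P.𝔨)‖ * sn (act R (b j : 𝔤) f)
      ≤ 1 * sn (act R (b j : 𝔤) f) := mul_le_mul_of_nonneg_right hin (sn_nonneg _)
    _ = _ := one_mul _

variable [MeasurableSpace P.K] [BorelSpace P.K] (μ : Measure P.K) [IsProbabilityMeasure μ]
  [μ.IsMulLeftInvariant] [μ.IsMulRightInvariant] [μ.IsOpenPosMeasure]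

/-- BASE-2: the basic inequality. If `S` bounds all coefficients `⟪ξ, π(g) f⟫` (up to constants
depending on `ξ`) then `‖f‖_∞ ≤ C e^{tc} S + C e^{-t} ‖∇ f‖_∞` for all `t ≥ 0`. -/
theorem basic_inequality (R : RepData P U) (p : V R → ℝ) (hp0 : ∀ f, 0 ≤ p f)
    (hp : ∀ ξ : V R, ∃ C : ℝ, ∀ (f : V R) (g : G),
      ‖pair μ (ξ : G → U) (lt g (f : G → U))‖ ≤ C * p f) :
    ∃ C : ℝ, 0 ≤ C ∧ ∀ (f : V R) (t : ℝ), 0 ≤ t →
      sn f ≤ C * Real.exp (t * P.c) * p f + C * Real.exp (-t) *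
        (sn f + ∑ i, sn (act R (stdOrthonormalBasis ℝ P.𝔨 i : 𝔤) f)) := by
  by_cases h0 : ∀ f : V R, f = 0
  · refine ⟨0, le_rfl, fun f t _ => ?_⟩
    rw [h0 f, sn_zero]
    simp
  push Not at h0
  have hsurj := ev_surj h0
  set n := Module.finrank ℂ U with hn
  set u := stdOrthonormalBasis ℂ U with hu
  set ε : ℝ := 1 / (2 * (n + 1)) with hε
  have hnpos : (0 : ℝ) < n + 1 := by positivity
  have hεpos : 0 < ε := by rw [hε]; positivity
  choose ξ₁ hξ₁ using fun i => hsurj (u i)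
  choose ξ C hC0 hC using fun i => asymptotics μ (ξ₁ i) hεpos
  choose D hD using fun i => hp (ξ i)
  have hCs : 0 ≤ ∑ i, C i := Finset.sum_nonneg fun i _ => hC0 i
  have hDs : 0 ≤ ∑ i, |D i| := Finset.sum_nonneg fun i _ => abs_nonneg _
  refine ⟨2 * (∑ i, |D i| + ∑ i, C i), by positivity, fun f t ht => ?_⟩
  set S1 := ∑ i, sn (act R (stdOrthonormalBasis ℝ P.𝔨 i : 𝔤) f) with hS1
  have hS1nn : 0 ≤ S1 := Finset.sum_nonneg fun i _ => sn_nonneg _
  set E := Real.exp (t * P.c) with hE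
  have hEpos : 0 < E := Real.exp_pos _
  have hEneg : Real.exp (-(t * P.c)) * E = 1 := by
    rw [hE, ← Real.exp_add]; simp
  have key : sn f ≤ (∑ i, |D i|) * E * p f + 1 / 2 * sn f +
      (∑ i, C i) * Real.exp (-t) * (sn f + S1) := by
    refine sn_le f fun k hk => ?_
    set f' : V R := kact R ⟨k⁻¹, inv_mem hk⟩ f with hf'
    have hf1 : (f' : G → U) 1 = (f : G → U) k := by
      rw [hf', kact_coe]
      simp [lt]
    have hb1 : ∀ l ∈ P.K, ‖(f' : G → U) l‖ ≤ sn f := fun l hl =>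
      (le_sn f' hl).trans (sn_kact _ f)
    have hb2 : ∀ l ∈ P.K, ∀ i, ‖P.lD (stdOrthonormalBasis ℝ P.𝔨 i : 𝔤) (f' : G → U) l‖ ≤ S1 :=
      fun l hl i => (le_sn (act R (stdOrthonormalBasis ℝ P.𝔨 i : 𝔤) f') hl).trans
        (sn_act_kact _ f i)
    have hcoef : ∀ i, ‖inner ℂ (u i) ((f' : G → U) 1)‖ ≤
        |D i| * E * p f + ε * sn f + C i * Real.exp (-t) * (sn f + S1) := by
      intro i
      have h1 := hC i f' (sn f) hb1 S1 hb2 t ht
      have h2 : (ξ₁ i : G → U) 1 = u i := hξ₁ i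
      rw [h2] at h1
      have h3 : ‖pair μ (ξ i : G → U) (lt (P.exp (t • (P.X0 : 𝔤)))⁻¹ (f' : G → U))‖ ≤
          |D i| * p f := by
        rw [hf', kact_coe, lt_lt]
        exact (hD i f _).trans (mul_le_mul_of_nonneg_right (le_abs_self _) (hp0 f))
      have h4 : ‖Complex.exp (-(Complex.I * (R.ν (t • (P.X0 : 𝔤)) : ℝ) + (t * P.c : ℝ))) *
            inner ℂ (u i) ((f' : G → U) 1)‖ =
          Real.exp (-(t * P.c)) * ‖inner ℂ (u i) ((f' : G → U) 1)‖ := by
        rw [norm_mul, Complex.norm_exp]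
        congr 2
        simp
      have h5 : Real.exp (-(t * P.c)) * ‖inner ℂ (u i) ((f' : G → U) 1)‖ ≤ |D i| * p f +
          Real.exp (-(t * P.c)) * (ε * sn f + C i * Real.exp (-t) * (sn f + S1)) := by
        rw [← h4]
        calc _ ≤ ‖pair μ (ξ i : G → U) (lt (P.exp (t • (P.X0 : 𝔤)))⁻¹ (f' : G → U))‖ +
              ‖pair μ (ξ i : G → U) (lt (P.exp (t • (P.X0 : 𝔤)))⁻¹ (f' : G → U)) -
          Complex.exp (-(Complex.I * (R.ν (t • (P.X0 : 𝔤)) : ℝ) + (t * P.c : ℝ))) *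
            inner ℂ (u i) ((f' : G → U) 1)‖ := norm_le_norm_add_norm_sub _ _
          _ ≤ _ := add_le_add h3 h1
      have h6 := mul_le_mul_of_nonneg_left h5 hEpos.le
      have h7 : E * (Real.exp (-(t * P.c)) * ‖inner ℂ (u i) ((f' : G → U) 1)‖) =
          ‖inner ℂ (u i) ((f' : G → U) 1)‖ := by
        rw [← mul_assoc, mul_comm E, hEneg, one_mul]
      have h8 : E * (|D i| * p f +
          Real.exp (-(t * P.c)) * (ε * sn f + C i * Real.exp (-t) * (sn f + S1))) =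
          |D i| * E * p f + (ε * sn f + C i * Real.exp (-t) * (sn f + S1)) := by
        rw [mul_add, ← mul_assoc E (Real.exp (-(t * P.c))), mul_comm E (Real.exp (-(t * P.c))),
          hEneg, one_mul]
        ring
      rw [h7, h8] at h6
      linarith
    have hsum : ‖(f : G → U) k‖ ≤ ∑ i, ‖inner ℂ (u i) ((f' : G → U) 1)‖ := by
      rw [← hf1]
      conv_lhs => rw [← u.sum_repr' ((f' : G → U) 1)]
      refine (norm_sum_le _ _).trans (Finset.sum_le_sum fun i _ => ?_)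
      rw [norm_smul, u.orthonormal.1 i, mul_one]
    refine hsum.trans ((Finset.sum_le_sum fun i _ => hcoef i).trans ?_)
    rw [Finset.sum_add_distrib, Finset.sum_add_distrib, Finset.sum_const, Finset.card_univ,
      Fintype.card_fin, nsmul_eq_mul, ← Finset.sum_mul, ← Finset.sum_mul, ← Finset.sum_mul,
      ← Finset.sum_mul]
    have hn2 : (Module.finrank ℂ U : ℝ) * (ε * sn f) ≤ 1 / 2 * sn f := by
      rw [← mul_assoc]
      refine mul_le_mul_of_nonneg_right ?_ (sn_nonneg f)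
      rw [hε, ← hn, mul_one_div, div_le_div_iff₀ (by positivity) (by norm_num)]
      linarith
    linarith
  have hx : 0 ≤ E * p f := mul_nonneg hEpos.le (hp0 f)
  have hy : 0 ≤ Real.exp (-t) * (sn f + S1) :=
    mul_nonneg (Real.exp_pos _).le (add_nonneg (sn_nonneg f) hS1nn)
  have e1 : (∑ i, |D i|) * E * p f ≤ (∑ i, |D i| + ∑ i, C i) * (E * p f) := by
    rw [mul_assoc]
    exact mul_le_mul_of_nonneg_right (by linarith) hx
  have e2 : (∑ i, C i) * Real.exp (-t) * (sn f + S1) ≤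
      (∑ i, |D i| + ∑ i, C i) * (Real.exp (-t) * (sn f + S1)) := by
    rw [mul_assoc]
    exact mul_le_mul_of_nonneg_right (by linarith) hy
  have e3 : 2 * (∑ i, |D i| + ∑ i, C i) * E * p f =
      2 * ((∑ i, |D i| + ∑ i, C i) * (E * p f)) := by ring
  have e4 : 2 * (∑ i, |D i| + ∑ i, C i) * Real.exp (-t) * (sn f + S1) =
      2 * ((∑ i, |D i| + ∑ i, C i) * (Real.exp (-t) * (sn f + S1))) := by ring
  rw [e3, e4]
  linarith

end Pool.Agent.Helper88.SG
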